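import Pool.Agent.H212AN.Many
import Pool.Agent.L7h97.LSI.Iso

set_option autoImplicit false

/-!
# The spectrum determines the length spectrum of discs with equal circular holes

Let `D` be an open disc minus `n` disjoint closed discs of the same radius. We prove that every
bounded plane domain `Ω` with smooth boundary, all but finitely many of whose Dirichlet eigenvalues
agree with those of `D`, has the same length spectrum as `D` (the lengths of all periodic billiard
trajectories, of any length):

1. if `n ≤ 2`, for all positions of the holes;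
2. if `n ≥ 3` and there is room for a ring of holes, for all positions in an open and dense subset
   of a nonempty open set of positions.

In both cases `Ω` is congruent to `D`. This is proved in the starting library (`H212AN`, theorems
`main_two` and `many_main`, heat trace and Brownian loops) where it was not handed in. The length
spectrum is invariant under all isometries (`Pool/Agent/L7h97/LSI/Iso.lean`).
-/

open Set Metric Filter
open Pool.Agent.W594.AN (ClosedCurve dirichletEigenvalue)
open scoped ComplexConjugate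

namespace Pool.Agent.Results.MP_f623ad_an.DiscsWithEqualHoles

/-- A bounded plane domain with smooth boundary: a bounded connected open set whose boundary is the
union of finitely many disjoint embedded smooth closed curves. -/
def IsSmoothDomain (Ω : Set ℂ) : Prop :=
  IsOpen Ω ∧ IsConnected Ω ∧ Bornology.IsBounded Ω ∧ ∃ (n : ℕ) (c : Fin n → ClosedCurve),
    frontier Ω = (⋃ i, range (c i).γ) ∧
    Pairwise fun i j => Disjoint (range (c i).γ) (range (c j).γ)

/-- The direction from `p` to `q`. -/
noncomputable def direction (p q : ℂ) : ℂ := (q - p) / (‖q - p‖ : ℂ)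

/-- The law of reflection at a point where the boundary has the unit tangent vector `τ`: the
incoming direction `u` and the outgoing direction `v` have the same tangential component and
opposite normal components, which are not zero. -/
def Reflects (u v τ : ℂ) : Prop :=
  (conj τ * v).re = (conj τ * u).re ∧ (conj τ * v).im = -(conj τ * u).im ∧ (conj τ * u).im ≠ 0

/-- `p` is the sequence of the vertices of a periodic billiard trajectory in `Ω` (`k + 2` vertices,
indices modulo `k + 2`): the vertices are on the boundary, the open segments between consecutive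
vertices are in `Ω`, and at each vertex the law of reflection holds, the unit tangent vector being
that of a smooth closed curve contained in the boundary. -/
def IsTrajectory (Ω : Set ℂ) (k : ℕ) (p : Fin (k + 2) → ℂ) : Prop :=
  (∀ i, p i ∈ frontier Ω) ∧ (∀ i, openSegment ℝ (p i) (p (i + 1)) ⊆ Ω) ∧
  ∀ i, ∃ (c : ClosedCurve) (s : ℝ), range c.γ ⊆ frontier Ω ∧ c.γ s = p i ∧
    Reflects (direction (p (i - 1)) (p i)) (direction (p i) (p (i + 1))) (deriv c.γ s)

/-- The length spectrum. -/
def lengthSpectrum (Ω : Set ℂ) : Set ℝ :=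
  {ℓ | ∃ (k : ℕ) (p : Fin (k + 2) → ℂ), IsTrajectory Ω k p ∧ ℓ = ∑ i, dist (p i) (p (i + 1))}

/-- The closed discs of radius `r` about the points `w i` are disjoint and lie in the open disc of
radius `R` about `z`. -/
def Holes (n : ℕ) (R r : ℝ) (z : ℂ) (w : Fin n → ℂ) : Prop :=
  (∀ i, closedBall (w i) r ⊆ ball z R) ∧
    Pairwise fun i j => Disjoint (closedBall (w i) r) (closedBall (w j) r)

/-- The open disc of radius `R` about `z` without the closed discs of radius `r` about the
points `w i`. -/
def disc (n : ℕ) (R r : ℝ) (z : ℂ) (w : Fin n → ℂ) : Set ℂ := ball z R \ ⋃ i, closedBall (w i) r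

/-- Every bounded plane domain with smooth boundary all but finitely many of whose Dirichlet
eigenvalues agree with those of `D` has the length spectrum of `D` and is congruent to `D`. -/
def Heard (D : Set ℂ) : Prop :=
  ∀ Ω : Set ℂ, IsSmoothDomain Ω →
    (∀ᶠ k in atTop, dirichletEigenvalue D k = dirichletEigenvalue Ω k) →
    lengthSpectrum Ω = lengthSpectrum D ∧ ∃ φ : ℂ ≃ᵢ ℂ, φ '' D = Ω

theorem result :
    (∀ (n : ℕ) (R r : ℝ) (z : ℂ) (w : Fin n → ℂ), n ≤ 2 → 0 < r → 0 < R → Holes n R r z w →
      Heard (disc n R r z w)) ∧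
    ∀ (n : ℕ) (R r : ℝ), 3 ≤ n → 0 < r →
      r * (1 + Real.sin (Real.pi / n)) < R * Real.sin (Real.pi / n) →
      ∃ V U : Set (Fin n → ℂ), IsOpen V ∧ V.Nonempty ∧ IsOpen U ∧ U ⊆ V ∧ V ⊆ closure U ∧
        (∀ w ∈ V, Holes n R r 0 w) ∧ ∀ w ∈ U, Heard (disc n R r 0 w) := by
  have key : ∀ D Ω : Set ℂ, (∃ φ : ℂ ≃ᵢ ℂ, φ '' D = Ω) →
      lengthSpectrum Ω = lengthSpectrum D ∧ ∃ φ : ℂ ≃ᵢ ℂ, φ '' D = Ω := by
    rintro D Ω ⟨φ, rfl⟩
    exact ⟨Pool.Agent.L7h97.LSI.LS_isometry D φ, φ, rfl⟩
  refine ⟨?_, ?_⟩
  · rintro n R r z w hn hr hR ⟨hw1, hw2⟩ Ω ⟨h1, h2, h3, m, c, h4, h5⟩ h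
    exact key _ _ (Pool.Agent.H212AN.main_two hn hr hR ⟨z, w, hw1, hw2, rfl⟩
      ⟨h1, h2, h3, h4, h5⟩ h)
  · intro n R r hn hr hroom
    obtain ⟨V, U, hV, hne, hU, hUV, hVU, hok, h⟩ := Pool.Agent.H212AN.many_main hn hr hroom
    refine ⟨V, U, hV, hne, hU, hUV, hVU, fun w hw => Pool.Agent.H212AN.OKn_iff (hok w hw), ?_⟩
    rintro w hw Ω ⟨h1, h2, h3, m, c, h4, h5⟩ hiso
    exact key _ _ (h w hw Ω m c ⟨h1, h2, h3, h4, h5⟩ hiso)

end Pool.Agent.Results.MP_f623ad_an.DiscsWithEqualHoles
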